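import Pool.Agent.D0H11.GM.Fin
import Pool.Agent.D0H2.GM.Btm
import Pool.Agent.D0H17.GM.Pu
import Pool.Agent.D0H10.GM.Su
import Pool.Agent.D0H8.GM.One
import Pool.Agent.D0H30.GM.Cnt
import Pool.Agent.D0H52.GM.Mom
import Pool.Agent.D0H52.GM.Dens
import Pool.Agent.D0H11.GO.FinM
import Pool.Agent.D0H70.GO.Eq
import Pool.Agent.D0H87.GO.Sel
import Pool.Agent.D0H52.GO.Pd
import Pool.Agent.D0H9.GO.Su1
import Pool.Agent.D0H9.GO.One1
import Pool.Agent.D0H12.GO.Cntm
import Pool.Agent.D0H45.GO.Pum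

/-!
# MP_1e1427_nt: generic multiples of the numbers of the question

Authors: helper11 (statement, assembly), helper2, helper8, helper9, helper10, helper12, helper17, helper30, helper45,
helper52, helper70, helper87 (modules).

(1) The number `2 ^ (x+y) + 2 ^ (z+w) + 1` of the question is replaced by `⌊α (2 ^ (x+y) + 2 ^ (z+w))⌋ + 1`, with ONE real
parameter. For almost every `α > 0` there are infinitely many `N` such that a positive proportion of the odd
`n < N` has at least `c √N` quadruples `n = x² + y² + z² + w²` for which this number is prime; this is the expected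
order. (2) The same for almost every `(α, β) ∈ (0, ∞)²` and `⌊α 2 ^ (x+y) + β 2 ^ (z+w)⌋ + 1`.

Proof. (1) For two sums `m`, `m'` of two powers of two with separated exponents and different ratios of the two
powers the pair `(⌊α m⌋ modulo e, ⌊α m'⌋ modulo e')` is equidistributed with a power of `m` saved when `α` varies in
an interval (`m' = 2 ^ k m + b` with `b` large but much smaller than `m`: `α m` is a fast variable and `α b` a slow
one). So the product of two Selberg sieves gives the bound `≪ 1 / M²` for the measure of the `α` with two primes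
(`M` the size of the exponents). (2) The map `(α, β) ↦ (L, L')` is linear with a large determinant, and
Brun-Titchmarsh gives the same bound. In both cases the pairs of quadruples of the same `n` with the same
difference `(x+y) - (z+w)` are few by a count of the solutions of `s² + t² - s'² - t'² = e`. With the prime number
theorem for the first moment, Paley-Zygmund gives a set of parameters of relative measure at least an absolute
constant, and the Lebesgue density theorem shows that the limes superior has full measure.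
-/

set_option autoImplicit false

open Filter MeasureTheory

namespace Pool.Agent.Results.MP_1e1427_nt.GenericMultiples

/-- the number `⌊α 2 ^ (x+y) + β 2 ^ (z+w)⌋ + 1`; for `α = β = 1` it is the number of the question -/
noncomputable def number (α β : ℝ) (x y z w : ℕ) : ℕ := ⌊α * 2 ^ (x + y) + β * 2 ^ (z + w)⌋₊ + 1

/-- the quadruples `n = x² + y² + z² + w²` whose number is prime -/
def Adm (α β : ℝ) (n : ℕ) : Set (ℕ × ℕ × ℕ × ℕ) :=
  {q | q.1 ^ 2 + q.2.1 ^ 2 + q.2.2.1 ^ 2 + q.2.2.2 ^ 2 = n ∧ (number α β q.1 q.2.1 q.2.2.1 q.2.2.2).Prime}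

theorem number_one (x y z w : ℕ) : number 1 1 x y z w = 2 ^ (x + y) + 2 ^ (z + w) + 1 := by
  unfold number
  have e : (1 : ℝ) * 2 ^ (x + y) + 1 * 2 ^ (z + w) = ((2 ^ (x + y) + 2 ^ (z + w) : ℕ) : ℝ) := by
    push_cast
    ring
  rw [e, Nat.floor_natCast]

/-- the map between the two forms of the quadruples -/
def tup (q : Fin 4 → ℕ) : ℕ × ℕ × ℕ × ℕ := (q 0, q 1, q 2, q 3)

theorem adm_card (a : ℝ × ℝ) (n : ℕ) : (Adm a.1 a.2 n).ncard =
    {q : Fin 4 → ℕ | Pool.Agent.D0H11.GM.nn q = n ∧ Pool.Agent.D0H11.GM.PP a q}.ncard := by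
  have e : Adm a.1 a.2 n = tup '' {q : Fin 4 → ℕ | Pool.Agent.D0H11.GM.nn q = n ∧ Pool.Agent.D0H11.GM.PP a q} := by
    ext t
    obtain ⟨x, y, z, w⟩ := t
    constructor
    · rintro ⟨h1, h2⟩
      exact ⟨![x, y, z, w], ⟨h1, h2⟩, rfl⟩
    · rintro ⟨q, ⟨h1, h2⟩, h3⟩
      unfold tup at h3
      simp only [Prod.mk.injEq] at h3
      obtain ⟨rfl, rfl, rfl, rfl⟩ := h3
      exact ⟨h1, h2⟩
  rw [e, Set.ncard_image_of_injective]
  intro q q' h
  unfold tup at h
  simp only [Prod.mk.injEq] at h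
  funext i
  fin_cases i
  · exact h.1
  · exact h.2.1
  · exact h.2.2.1
  · exact h.2.2.2

theorem adm_card' (α : ℝ) (n : ℕ) : (Adm α α n).ncard =
    {q : Fin 4 → ℕ | Pool.Agent.D0H11.GM.nn q = n ∧ Pool.Agent.D0H11.GO.PM α q}.ncard := by
  rw [adm_card (α, α) n]
  congr 1
  ext q
  have e : Pool.Agent.D0H11.GM.PP (α, α) q ↔ Pool.Agent.D0H11.GO.PM α q := by
    unfold Pool.Agent.D0H11.GM.PP Pool.Agent.D0H11.GM.LL Pool.Agent.D0H11.GO.PM Pool.Agent.D0H11.GM.uu
      Pool.Agent.D0H11.GM.vv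
    simp only
    rw [← mul_add]
  simp only [Set.mem_ofPred_eq, e]

theorem result : (∃ c : ℝ, 0 < c ∧ ∀ᵐ α : ℝ, 0 < α → ∃ᶠ N : ℕ in atTop,
      c * N ≤ ({n : ℕ | n < N ∧ Odd n ∧ c * Real.sqrt N ≤ ((Adm α α n).ncard : ℝ)}.ncard : ℝ)) ∧
    (∃ c : ℝ, 0 < c ∧ ∀ᵐ a : ℝ × ℝ, 0 < a.1 → 0 < a.2 → ∃ᶠ N : ℕ in atTop,
      c * N ≤ ({n : ℕ | n < N ∧ Odd n ∧ c * Real.sqrt N ≤ ((Adm a.1 a.2 n).ncard : ℝ)}.ncard : ℝ)) ∧
    ∀ x y z w : ℕ, number 1 1 x y z w = 2 ^ (x + y) + 2 ^ (z + w) + 1 := by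
  classical
  refine ⟨?_, ?_, number_one⟩
  · have hPD := Pool.Agent.D0H52.GO.t_PD Pool.Agent.D0H70.GO.t_EQ Pool.Agent.D0H87.GO.t_SEL
    obtain ⟨c, hc, h⟩ := Pool.Agent.D0H11.GO.mainM Pool.Agent.D0H30.GM.t_CNT Pool.Agent.D0H12.GO.t_CNTM
      (Pool.Agent.D0H45.GO.t_PUM hPD) (Pool.Agent.D0H9.GO.t_SU1 Pool.Agent.D0H2.GM.t_BTM) Pool.Agent.D0H9.GO.t_ONE1
      Pool.Agent.D0H52.GM.t_MOM Pool.Agent.D0H52.GM.t_DENS
    refine ⟨c, hc, ?_⟩
    filter_upwards [h] with α hα h1
    refine (hα h1).mono fun N hN => ?_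
    refine hN.trans (le_of_eq ?_)
    norm_cast
    rw [← Set.ncard_coe_finset]
    congr 1
    ext n
    simp only [Finset.coe_filter, Finset.mem_range, Set.mem_ofPred_eq, adm_card']
  · obtain ⟨c, hc, h⟩ := Pool.Agent.D0H11.GM.main Pool.Agent.D0H30.GM.t_CNT (Pool.Agent.D0H17.GM.t_PU Pool.Agent.D0H2.GM.t_BTM)
      (Pool.Agent.D0H10.GM.t_SU Pool.Agent.D0H2.GM.t_BTM) Pool.Agent.D0H8.GM.t_ONE Pool.Agent.D0H52.GM.t_MOM
      Pool.Agent.D0H52.GM.t_DENS
    refine ⟨c, hc, ?_⟩
    filter_upwards [h] with a ha h1 h2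
    refine (ha h1 h2).mono fun N hN => ?_
    refine hN.trans (le_of_eq ?_)
    norm_cast
    rw [← Set.ncard_coe_finset]
    congr 1
    ext n
    simp only [Finset.coe_filter, Finset.mem_range, Set.mem_ofPred_eq, adm_card]

end Pool.Agent.Results.MP_1e1427_nt.GenericMultiples
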