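import Pool.Agent.D0H51.SS.Low
import Pool.Agent.Results.MP_1e1427_nt.ManyQuadruples

/-!
# MP_1e1427_nt: sparse sequences and prime factors beyond the square root

For every real `h ≥ 1` and almost every real `α > 0` a positive proportion of the `m ≤ M` is such that `n = ⌊α m ^ h⌋` is
odd with at least `c √n / log n` quadruples `n = x² + y² + z² + w²` for which all prime factors of
`2^(x+y) + 2^(z+w) + 1` are larger than `c √n log n`.

Proof: the starting result ManyQuadruples for all integers `n` and the transfer of lower bounds for the counting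
function of an arbitrary set to almost all sequences `⌊α m ^ h⌋` (`Pool.Agent.D0H51.SS.low`, from the universal
sampling theorem of helper91).
-/

set_option autoImplicit false

namespace Pool.Agent.Results.MP_1e1427_nt.SparseBeyondRoot

open Filter MeasureTheory Topology Finset

/-- the quadruples of natural numbers with `n = x² + y² + z² + w²` for which all prime factors of
`2^(x+y) + 2^(z+w) + 1` are larger than `B` -/
def quads (B : ℝ) (n : ℕ) : Set (ℕ × ℕ × ℕ × ℕ) :=
  {p | n = p.1 ^ 2 + p.2.1 ^ 2 + p.2.2.1 ^ 2 + p.2.2.2 ^ 2 ∧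
    ∀ q : ℕ, q.Prime → q ∣ 2 ^ (p.1 + p.2.1) + 2 ^ (p.2.2.1 + p.2.2.2) + 1 → B < q}

/-- `n` is odd and has at least `c √n / log n` quadruples with all prime factors larger than `c √n log n` -/
def Rich (c : ℝ) (n : ℕ) : Prop :=
  Odd n ∧ c * √(n : ℝ) / Real.log n ≤ ((quads (c * √(n : ℝ) * Real.log n) n).ncard : ℝ)

theorem quads_finite (B : ℝ) (n : ℕ) : (quads B n).Finite := by
  have h1 : (quads B n) ⊆ ((range (n + 1) ×ˢ (range (n + 1) ×ˢ (range (n + 1) ×ˢ range (n + 1))) :
      Finset (ℕ × ℕ × ℕ × ℕ)) : Set (ℕ × ℕ × ℕ × ℕ)) := by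
    rintro ⟨x, y, z, w⟩ ⟨h, -⟩
    simp only at h
    simp only [Finset.coe_product, Set.mem_prod, Finset.mem_coe, Finset.mem_range]
    refine ⟨?_, ?_, ?_, ?_⟩ <;> nlinarith [sq_nonneg (x : ℤ), sq_nonneg (y : ℤ)]
  exact (Finset.finite_toSet _).subset h1

open Classical in
/-- **Main result.** -/
theorem result : ∃ c : ℝ, 0 < c ∧ ∀ h : ℝ, 1 ≤ h → ∃ κ : ℝ, 0 < κ ∧ ∀ᵐ α : ℝ, 0 < α → ∀ᶠ M : ℕ in atTop,
    κ * M ≤ (((Icc 1 M).filter (fun m : ℕ => Rich c ⌊α * (m : ℝ) ^ h⌋₊)).card : ℝ) := by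
  obtain ⟨c, hc, X₀, hst⟩ := Pool.Agent.Results.MP_1e1427_nt.ManyQuadruples.result
  refine ⟨c, hc, fun h hh => ⟨c / 2 / (4 * h), by positivity, ?_⟩⟩
  filter_upwards [Pool.Agent.D0H51.SS.low h hh {n | Rich c n}] with α hα hα0
  refine (hα hα0 (c / 2) (by positivity)).1 ?_
  filter_upwards [eventually_ge_atTop X₀, eventually_ge_atTop ⌈16 / c⌉₊] with X hX hX2
  have h0 := hst X hX
  have hcX : 16 / c ≤ X := (Nat.le_ceil _).trans (by exact_mod_cast hX2)
  rw [div_le_iff₀ hc] at hcX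
  have h1 : {n : ℕ | n ≤ X ∧ Odd n ∧ c * √(X : ℝ) / Real.log X ≤ (Set.ncard {p : ℕ × ℕ × ℕ × ℕ |
        n = p.1 ^ 2 + p.2.1 ^ 2 + p.2.2.1 ^ 2 + p.2.2.2 ^ 2 ∧
        ∀ q : ℕ, q.Prime → q ∣ 2 ^ (p.1 + p.2.1) + 2 ^ (p.2.2.1 + p.2.2.2) + 1 →
          c * √(X : ℝ) * Real.log X < q} : ℝ)}.ncard ≤
      ((range (X + 1)).filter (· ∈ {n | Rich c n})).card + 8 := by
    rw [← Set.ncard_coe_finset, ← Finset.card_range 8, ← Set.ncard_coe_finset]
    refine (Set.ncard_le_ncard ?_ ((Finset.finite_toSet _).union (Finset.finite_toSet _))).trans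
      (Set.ncard_union_le _ _)
    rintro n ⟨h3, h4, h5⟩
    by_cases h6 : n < 8
    · right
      exact Finset.mem_coe.2 (Finset.mem_range.2 h6)
    · left
      rw [Finset.mem_coe, Finset.mem_filter, Finset.mem_range]
      refine ⟨by omega, h4, ?_⟩
      have hn8 : (8 : ℝ) ≤ n := by exact_mod_cast not_lt.1 h6
      have hnX : (n : ℝ) ≤ X := by exact_mod_cast h3
      have hl0 : 0 < Real.log n := Real.log_pos (by linarith)
      have hlX : Real.log n ≤ Real.log X := Real.log_le_log (by linarith) hnX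
      have hsX : √(n : ℝ) ≤ √(X : ℝ) := Real.sqrt_le_sqrt hnX
      have he : Real.exp 2 ≤ n := by
        have := Real.exp_one_lt_d9
        have h7 : Real.exp 2 = Real.exp 1 ^ 2 := by
          rw [← Real.exp_nat_mul]
          norm_num
        rw [h7]
        nlinarith [Real.exp_pos 1]
      have hanti := Real.log_div_sqrt_antitoneOn (Set.mem_Ici.2 he) (Set.mem_Ici.2 (he.trans hnX)) hnX
      have hs0 : 0 < √(n : ℝ) := Real.sqrt_pos.2 (by linarith)
      have hq : √(n : ℝ) / Real.log n ≤ √(X : ℝ) / Real.log X := by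
        simp only at hanti
        rw [div_le_div_iff₀ (by linarith) hs0] at hanti
        rw [div_le_div_iff₀ hl0 (by linarith)]
        linarith
      calc c * √(n : ℝ) / Real.log n = c * (√(n : ℝ) / Real.log n) := by ring
        _ ≤ c * (√(X : ℝ) / Real.log X) := mul_le_mul_of_nonneg_left hq hc.le
        _ = c * √(X : ℝ) / Real.log X := by ring
        _ ≤ _ := h5
        _ ≤ _ := by
            refine Nat.cast_le.2 (Set.ncard_le_ncard ?_ (quads_finite _ _))
            rintro v ⟨h8, h9⟩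
            refine ⟨h8, fun q hq' hd => lt_of_le_of_lt ?_ (h9 q hq' hd)⟩
            gcongr
  have h2 := h0.trans (Nat.cast_le.2 h1)
  rw [Nat.cast_add] at h2
  have h3 : ((8 : ℕ) : ℝ) = 8 := by norm_num
  rw [h3] at h2
  have h4 : c / 2 * X ≤ (((range (X + 1)).filter (· ∈ {n | Rich c n})).card : ℝ) := by linarith
  convert h4
  exact Iff.rfl

end Pool.Agent.Results.MP_1e1427_nt.SparseBeyondRoot
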