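import Pool.Agent.D0H51.SS.Tr
import Pool.Agent.N699.AO.Main

set_option autoImplicit false

/-!
# MP_1e1427_nt: sparse sequences of odd integers

For almost every real `α > 0` almost all odd integers of the form `n = ⌊α m ^ h⌋` (`h ≥ 1` a real number, so these are
sparse sequences: about `X ^ (1 / h)` of the integers up to `X`) have many quadruples `n = x² + y² + z² + w²` for which
all prime factors of `2^(x+y) + 2^(z+w) + 1` are larger than `B`, for all `B` up to `√n / (A (log n)²)`.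

The starting result AlmostAllOddIntegers is the case of all integers: its exceptional sets have positive upper bounds
for the density and say nothing about a sparse sequence. Proof: the universal sampling theorem of helper91
(`Pool.Agent.D0H91.US.us_ae`) for a family of exceptional sets of dyadic parameters.
-/

namespace Pool.Agent.Results.MP_1e1427_nt.SparseSequences

open Filter MeasureTheory Topology Finset

/-- the quadruples of natural numbers with `n = x² + y² + z² + w²` for which all prime factors of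
`2^(x+y) + 2^(z+w) + 1` are larger than `B` -/
def quads (B : ℝ) (n : ℕ) : Set (ℕ × ℕ × ℕ × ℕ) :=
  {p | n = p.1 ^ 2 + p.2.1 ^ 2 + p.2.2.1 ^ 2 + p.2.2.2 ^ 2 ∧
    ∀ q : ℕ, q.Prime → q ∣ 2 ^ (p.1 + p.2.1) + 2 ^ (p.2.2.1 + p.2.2.2) + 1 → B < q}

theorem start : ∀ ε : ℝ, 0 < ε → ∃ δ : ℝ, 0 < δ ∧ ∃ A : ℝ, 0 < A ∧ ∃ X₀ : ℕ, ∀ X : ℕ, X₀ ≤ X →
    ∀ B : ℝ, 1 ≤ B → A * B * (Real.log X) ^ 2 ≤ √(X : ℝ) →
    (((Finset.range (X + 1)).filter
      (fun n => Odd n ∧ ((quads B n).ncard : ℝ) < δ * (√(X : ℝ) / B))).card : ℝ) ≤ ε * X :=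
  Pool.Agent.N699.AO.t_FINI

theorem quads_finite (B : ℝ) (n : ℕ) : (quads B n).Finite := by
  have h1 : (quads B n) ⊆ ((range (n + 1) ×ˢ (range (n + 1) ×ˢ (range (n + 1) ×ˢ range (n + 1))) :
      Finset (ℕ × ℕ × ℕ × ℕ)) : Set (ℕ × ℕ × ℕ × ℕ)) := by
    rintro ⟨x, y, z, w⟩ ⟨h, -⟩
    simp only at h
    simp only [Finset.coe_product, Set.mem_prod, Finset.mem_coe, Finset.mem_range]
    refine ⟨?_, ?_, ?_, ?_⟩ <;> nlinarith [sq_nonneg (x : ℤ), sq_nonneg (y : ℤ)]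
  exact (Finset.finite_toSet _).subset h1

theorem quads_mono {B B' : ℝ} (h : B ≤ B') (n : ℕ) : quads B' n ⊆ quads B n :=
  fun _ hp => ⟨hp.1, fun q hq hd => h.trans_lt (hp.2 q hq hd)⟩

open Classical in
/-- **Main result.** -/
theorem result (h : ℝ) (hh : 1 ≤ h) (ε : ℝ) (hε : 0 < ε) : ∃ δ : ℝ, 0 < δ ∧ ∃ A : ℝ, 0 < A ∧
    ∀ᵐ α : ℝ, 0 < α → ∀ᶠ M : ℕ in atTop, ∀ B : ℝ, 1 ≤ B →
      A * B * (Real.log (α * (M : ℝ) ^ h)) ^ 2 ≤ √(α * (M : ℝ) ^ h) →
      (((Finset.Icc 1 M).filter (fun m : ℕ => Odd ⌊α * (m : ℝ) ^ h⌋₊ ∧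
        ((quads B ⌊α * (m : ℝ) ^ h⌋₊).ncard : ℝ) < δ * (√(α * (M : ℝ) ^ h) / B))).card : ℝ) ≤ ε * M := by
  have hh0 : 0 < h := by linarith
  obtain ⟨c, hc0, hc1, htr⟩ := Pool.Agent.D0H51.SS.transfer h hh
  obtain ⟨d, hd⟩ : ∃ d : ℝ, d = min (ε / 3) 1 := ⟨_, rfl⟩
  have hd0 : 0 < d := by rw [hd]; positivity
  have hd1 : d ≤ 1 := by rw [hd]; exact min_le_right _ _
  have hd2 : d ≤ ε / 3 := by rw [hd]; exact min_le_left _ _
  obtain ⟨e, he⟩ : ∃ e : ℝ, e = ε / 3 * (h * d ^ (h - 1)) := ⟨_, rfl⟩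
  have he0 : 0 < e := by rw [he]; positivity
  obtain ⟨δ₀, hδ₀, A₀, hA₀, X₀, hst⟩ := start e he0
  refine ⟨δ₀ / 8, by positivity, 8 * A₀, by positivity, ?_⟩
  filter_upwards [htr (fun k => {n : ℕ | Odd n ∧
    ((quads ((2 : ℝ) ^ (Nat.unpair k).1) n).ncard : ℝ) < (2 : ℝ) ^ (Nat.unpair k).2})] with α hα hα0
  have hXt : Tendsto (fun M : ℕ => α * (M : ℝ) ^ h) atTop atTop :=
    ((tendsto_rpow_atTop hh0).comp tendsto_natCast_atTop_atTop).const_mul_atTop hα0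
  have hlogt : Tendsto (fun M : ℕ => Real.log (α * (M : ℝ) ^ h)) atTop atTop := Real.tendsto_log_atTop.comp hXt
  -- sizes of the indices
  have hidx : ∀ᶠ M : ℕ in atTop, (2 * Real.log (α * (M : ℝ) ^ h) + 1) ^ 2 ≤ (M : ℝ) ^ c := by
    filter_upwards [Pool.Agent.W301.SS.ev_log 2 ((2 * h + 2) ^ 2) c hc0, eventually_ge_atTop 1,
      (Real.tendsto_log_atTop.comp tendsto_natCast_atTop_atTop).eventually_ge_atTop (2 * |Real.log α| + 1),
      hlogt.eventually_ge_atTop 0] with M h1 hM1 h2 h3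
    have hM0 : (0 : ℝ) < M := by exact_mod_cast hM1
    simp only [Function.comp] at h2
    have h4 : Real.log (α * (M : ℝ) ^ h) = Real.log α + h * Real.log M := by
      rw [Real.log_mul hα0.ne' (by positivity), Real.log_rpow hM0]
    refine le_trans ?_ h1
    rw [← mul_pow]
    refine pow_le_pow_left₀ (by linarith) ?_ 2
    have h5 := le_abs_self (Real.log α)
    rw [h4]
    nlinarith [abs_nonneg (Real.log α)]
  have hpow : ∀ᶠ M : ℕ in atTop, (M : ℝ) ^ (1 - c) ≤ ε / 3 * M := by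
    have h1 := ((tendsto_rpow_neg_atTop hc0).comp tendsto_natCast_atTop_atTop).eventually
      (gt_mem_nhds (show (0 : ℝ) < ε / 3 by positivity))
    filter_upwards [h1, eventually_ge_atTop 1] with M h2 hM1
    have hM0 : (0 : ℝ) < M := by exact_mod_cast hM1
    simp only [Function.comp] at h2
    have h3 : (M : ℝ) ^ (1 - c) = (M : ℝ) ^ (-c) * M := by
      rw [show (1 - c) = (-c) + 1 by ring, Real.rpow_add hM0, Real.rpow_one]
    rw [h3]
    exact mul_le_mul_of_nonneg_right h2.le hM0.le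
  filter_upwards [hα hα0, hidx, hpow, hXt.eventually_ge_atTop (X₀ + 4 : ℝ),
    hlogt.eventually_ge_atTop (1 + 1 / (δ₀ * A₀)), hXt.eventually_ge_atTop (2 : ℝ),
    hXt.eventually_ge_atTop (1 / (4 * A₀ ^ 2)), hXt.eventually_ge_atTop (δ₀ ^ 2), eventually_ge_atTop 1]
    with M hM hMi hMp hMX hMl hMX2 hMA hMd hM1 B hB hAB
  obtain ⟨X, hX⟩ : ∃ X : ℝ, X = α * (M : ℝ) ^ h := ⟨_, rfl⟩
  rw [← hX] at hM hMi hMX hMl hMX2 hAB hMA hMd ⊢
  have hM0 : (0 : ℝ) < M := by exact_mod_cast hM1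
  have hX0 : 0 < X := by linarith
  have hB0 : 0 < B := by linarith
  obtain ⟨Y, hY⟩ : ∃ Y : ℕ, Y = ⌊X⌋₊ := ⟨_, rfl⟩
  have hYX : (Y : ℝ) ≤ X := by rw [hY]; exact Nat.floor_le hX0.le
  have hXY : X < Y + 1 := by rw [hY]; exact Nat.lt_floor_add_one X
  have hY4 : X / 4 ≤ Y := by linarith
  have hsY : √X / 2 ≤ √(Y : ℝ) := by
    apply Real.le_sqrt_of_sq_le
    rw [div_pow, Real.sq_sqrt hX0.le]
    linarith
  have hl1 : 1 ≤ Real.log X := by
    have : 0 < 1 / (δ₀ * A₀) := by positivity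
    linarith
  have hsX0 : 0 < √X := Real.sqrt_pos.2 hX0
  -- the parameter `B`
  obtain ⟨i, hi1, hi2⟩ := exists_nat_pow_near hB one_lt_two
  -- the threshold
  have hAB' : 8 * A₀ * (Real.log X) ^ 2 ≤ √X / B := by
    rw [le_div_iff₀ hB0]
    linarith
  have ht1 : 1 ≤ δ₀ / 8 * (√X / B) := by
    have h1 : (Real.log X) ≤ (Real.log X) ^ 2 := by nlinarith
    calc (1 : ℝ) = δ₀ / 8 * (8 * A₀ * (1 / (δ₀ * A₀))) := by field_simp
      _ ≤ δ₀ / 8 * (8 * A₀ * (Real.log X) ^ 2) := by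
          have : 1 / (δ₀ * A₀) ≤ (Real.log X) ^ 2 := by linarith
          gcongr
      _ ≤ _ := by gcongr
  obtain ⟨j, hj1, hj2⟩ := exists_nat_pow_near ht1 one_lt_two
  -- the index
  have hsmall : ∀ a : ℕ, (2 : ℝ) ^ a ≤ X → (a : ℝ) ≤ 2 * Real.log X := by
    intro a ha
    have h1 : Real.log ((2 : ℝ) ^ a) ≤ Real.log X := Real.log_le_log (by positivity) ha
    rw [Real.log_pow] at h1
    have h2 := Real.log_two_gt_d9
    have h3 : (0 : ℝ) ≤ a := Nat.cast_nonneg a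
    nlinarith
  have hABX : B ≤ √X / (8 * A₀) := by
    rw [le_div_iff₀ (by positivity)]
    have h1 : 8 * A₀ * B * 1 ≤ 8 * A₀ * B * (Real.log X) ^ 2 := by
      apply mul_le_mul_of_nonneg_left _ (by positivity)
      nlinarith
    linarith
  have hBX : 2 * B ≤ X := by
    have h1 : 1 / (2 * A₀) ≤ √X := by
      apply Real.le_sqrt_of_sq_le
      calc (1 / (2 * A₀)) ^ 2 = 1 / (4 * A₀ ^ 2) := by
            rw [div_pow]
            ring
        _ ≤ X := hMA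
    calc 2 * B ≤ 2 * (√X / (8 * A₀)) := by linarith
      _ = 1 / (2 * A₀) * √X / 2 := by
          field_simp
          norm_num
      _ ≤ √X * √X / 2 := by gcongr
      _ = X / 2 := by rw [Real.mul_self_sqrt hX0.le]
      _ ≤ X := by linarith
  have hi3 : (2 : ℝ) ^ (i + 1) ≤ X := by
    rw [pow_succ]
    linarith
  have hj3 : (2 : ℝ) ^ (j + 1) ≤ X := by
    rw [pow_succ]
    have h1 : δ₀ ≤ √X := Real.le_sqrt_of_sq_le hMd
    have h2 : √X / B ≤ √X := div_le_self hsX0.le hB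
    calc (2 : ℝ) ^ j * 2 ≤ δ₀ / 8 * (√X / B) * 2 := by linarith
      _ ≤ √X / 8 * √X * 2 := by gcongr
      _ = √X * √X / 4 := by ring
      _ = X / 4 := by rw [Real.mul_self_sqrt hX0.le]
      _ ≤ X := by linarith
  have hk : ((Nat.pair (i + 1) (j + 1) : ℕ) : ℝ) ≤ (M : ℝ) ^ c := by
    have h1 : Nat.pair (i + 1) (j + 1) < (max (i + 1) (j + 1) + 1) ^ 2 := Nat.pair_lt_max_add_one_sq _ _
    have h2 : ((max (i + 1) (j + 1) : ℕ) : ℝ) ≤ 2 * Real.log X := by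
      rcases le_total (i + 1) (j + 1) with h3 | h3
      · rw [max_eq_right h3]
        exact hsmall _ hj3
      · rw [max_eq_left h3]
        exact hsmall _ hi3
    calc ((Nat.pair (i + 1) (j + 1) : ℕ) : ℝ) ≤ (((max (i + 1) (j + 1) + 1) ^ 2 : ℕ) : ℝ) := by
          exact_mod_cast h1.le
      _ = (((max (i + 1) (j + 1) : ℕ) : ℝ) + 1) ^ 2 := by push_cast; ring
      _ ≤ (2 * Real.log X + 1) ^ 2 := by gcongr
      _ ≤ _ := hMi
  have hmain := (hM _ hk).2 d hd0 hd1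
  rw [Nat.unpair_pair] at hmain
  simp only at hmain
  -- the exceptional set is small
  have hcount : (((range (⌊X⌋₊ + 1)).filter (fun n => Odd n ∧
      ((quads ((2 : ℝ) ^ (i + 1)) n).ncard : ℝ) < (2 : ℝ) ^ (j + 1))).card : ℝ) ≤ e * X := by
    rw [← hY]
    have hY0 : X₀ ≤ Y := by
      have : (X₀ : ℝ) < Y + 1 := by linarith
      exact_mod_cast Nat.lt_succ_iff.1 (by exact_mod_cast this)
    have hYr : (0 : ℝ) < Y := by linarith
    have h1 := hst Y hY0 ((2 : ℝ) ^ (i + 1)) (one_le_pow₀ (by norm_num)) (by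
      have h2 : Real.log Y ≤ Real.log X := Real.log_le_log hYr hYX
      have h2' : 0 ≤ Real.log Y := by
        apply Real.log_nonneg
        linarith
      calc A₀ * (2 : ℝ) ^ (i + 1) * (Real.log Y) ^ 2 ≤ A₀ * (2 * B) * (Real.log X) ^ 2 := by
            have : (2 : ℝ) ^ (i + 1) ≤ 2 * B := by
              rw [pow_succ]
              linarith
            gcongr
        _ = 8 * A₀ * B * (Real.log X) ^ 2 / 4 := by ring
        _ ≤ √X / 4 := by linarith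
        _ ≤ √X / 2 := by linarith
        _ ≤ _ := hsY)
    refine le_trans ?_ (h1.trans (mul_le_mul_of_nonneg_left hYX he0.le))
    refine Nat.cast_le.2 (Finset.card_le_card fun n hn => ?_)
    rw [Finset.mem_filter] at hn ⊢
    refine ⟨hn.1, hn.2.1, hn.2.2.trans_le ?_⟩
    calc (2 : ℝ) ^ (j + 1) ≤ δ₀ / 8 * (√X / B) * 2 := by
          rw [pow_succ]
          linarith
      _ = δ₀ * ((√X / 2) / (2 * B)) := by
          field_simp
          norm_num
      _ ≤ δ₀ * (√(Y : ℝ) / (2 : ℝ) ^ (i + 1)) := by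
          have : (2 : ℝ) ^ (i + 1) ≤ 2 * B := by
            rw [pow_succ]
            linarith
          gcongr
  -- comparison
  have hcmp : (((Finset.Icc 1 M).filter (fun m : ℕ => Odd ⌊α * (m : ℝ) ^ h⌋₊ ∧
        ((quads B ⌊α * (m : ℝ) ^ h⌋₊).ncard : ℝ) < δ₀ / 8 * (√X / B))).card : ℝ) ≤
      (((Icc 1 M).filter (fun m : ℕ => Odd ⌊α * (m : ℝ) ^ h⌋₊ ∧
        ((quads ((2 : ℝ) ^ (i + 1)) ⌊α * (m : ℝ) ^ h⌋₊).ncard : ℝ) < (2 : ℝ) ^ (j + 1))).card : ℝ) := by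
    refine Nat.cast_le.2 (Finset.card_le_card fun m hm => ?_)
    rw [Finset.mem_filter] at hm ⊢
    refine ⟨hm.1, hm.2.1, ?_⟩
    have h1 : ((quads ((2 : ℝ) ^ (i + 1)) ⌊α * (m : ℝ) ^ h⌋₊).ncard : ℝ) ≤
        ((quads B ⌊α * (m : ℝ) ^ h⌋₊).ncard : ℝ) := by
      exact_mod_cast Set.ncard_le_ncard (quads_mono hi2.le _) (quads_finite _ _)
    exact h1.trans_lt (hm.2.2.trans hj2)
  refine hcmp.trans (hmain.trans ?_)
  have h5 : ((M : ℝ) / (h * d ^ (h - 1) * X)) * (((range (⌊X⌋₊ + 1)).filter (fun n => Odd n ∧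
      ((quads ((2 : ℝ) ^ (i + 1)) n).ncard : ℝ) < (2 : ℝ) ^ (j + 1))).card : ℝ) ≤ ε / 3 * M := by
    calc _ ≤ ((M : ℝ) / (h * d ^ (h - 1) * X)) * (e * X) := by gcongr
      _ = ε / 3 * M := by
          rw [he]
          field_simp
  have h6 : d * M ≤ ε / 3 * M := mul_le_mul_of_nonneg_right hd2 hM0.le
  linarith

end Pool.Agent.Results.MP_1e1427_nt.SparseSequences
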